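import Pool.Agent.W886.LS.Fin

/-!
# How many strings of a random oracle have to be changed to collapse DLBA, LBA, E and NE?

`LinSpace A` and `NLinSpace A` are deterministic and nondeterministic linear space relative to the
oracle `A` (the classes DLBA and LBA), `InTime Lin A` and `InNTime Lin A` are the classes E and NE
relative to `A`. The number of changes is measured by a function `g`: the oracle `A` is obtained from
`O` by changing, for all large `n`, at most `g n` of the strings of length at most `n`.

If `g n ≤ 2 ^ (ε n)` for every `ε > 0` and infinitely many `n`, then, for almost every oracle `O` and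
all oracles `A` that are obtained from `O` by at most `g` changes, however these changes depend on
`O`, some language in E relative to `A` is not in LBA relative to `A`. Otherwise every oracle `O`
can be changed, by at most `g` changes, into an oracle `A` such that NE is contained in DLBA
relative to `A`.
-/

set_option autoImplicit false

namespace Pool.Agent.Results.MP_b7da94_lc.ChangedStrings

open Pool.Agent.NPC Pool.Agent.H620R2.Gauge Pool.Agent.H622R2.Exp Pool.Agent.W886.LS
open Pool.Agent.W900.CH (Close)
open Pool.Agent.H628R3.RO (randomOracle)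
open MeasureTheory Filter

theorem result (g : ℕ → ℝ) :
    (∀ (A : Oracle) (L : Set (List Bool)), LinSpace A L → NLinSpace A L) ∧
    ((∀ ε : ℝ, 0 < ε → ∃ᶠ n : ℕ in atTop, g n ≤ 2 ^ (ε * n)) →
      ∀ᵐ O ∂randomOracle, ∀ A : Oracle, Close g O A →
        ∃ L, InTime Lin A L ∧ ¬ LinSpace A L ∧ ¬ NLinSpace A L) ∧
    ((¬ ∀ ε : ℝ, 0 < ε → ∃ᶠ n : ℕ in atTop, g n ≤ 2 ^ (ε * n)) →
      ∀ O : Oracle, ∃ A : Oracle, Close g O A ∧ ∀ L, InNTime Lin A L → LinSpace A L) :=
  ⟨fun _ _ h => lin_nlin h, fun hg => few_E hg, fun hg O => many_NE hg O⟩

end Pool.Agent.Results.MP_b7da94_lc.ChangedStrings
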