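import Pool.Agent.W994.TR.All
import Pool.Agent.W565.TR.Up

/-!
Reachability in directed graphs by nondeterministic and deterministic programs which read few
variables: in directed trees the deterministic space is `Θ(log² k / log log k)`.
-/

set_option autoImplicit false

namespace Pool.Agent.Results.MP_b7da94_lc.FewReadsTreeReachability

open Pool.Agent.W997.TS (DBP)
open Pool.Agent.H554R2.Thrifty (BP)
open Pool.Agent.W994.ST (Input Reach nReach)
open Pool.Agent.W994.TR (TreeFrom)

open Classical in
/-- **Space for reachability with few reads.** The input `x` is a directed graph with `k` vertices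
and two pointers at every vertex (a variable for every pointer, its value is a vertex).

(1) A nondeterministic program with `2 * k + 3` states (space `log₂ k + O(1)`) accepts exactly the
graphs with a path from `s` to `t`, with a computation which reads at most `nReach x s` variables;
on trees it has at most one accepting computation.

(2) A deterministic program of size `(8 * k ^ 2) ^ (log₂ k + 2)` (space `O(log² k)`, Savitch's
bound) decides reachability for all graphs and reads at most `2 * nReach x s` different variables.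

(3) On trees (`TreeFrom x s`) space `O(log² k / log log k)` is enough, again with at most
`2 * nReach x s` different variables read.

(4) For trees with at most `k ^ δ` vertices reachable from `s`, space `Ω(log² k / log log k)` is
needed by every deterministic program which reads on average at most `k ^ θ` different variables
(`δ > 0`, `θ < 1`), even if it only has to be right on a fraction `1 / 2 + k ^ (-c)` of the inputs
of a finite family. -/
theorem result :
    (∀ (k : ℕ) (s t : Fin k), ∃ P : BP (Fin k × Bool) k, P.size = 2 * k + 3 ∧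
      ∀ x : Input k, (Reach x s t ↔ ∃ l, P.IsComp x l true) ∧
        (Reach x s t → ∃ l, P.IsComp x l true ∧ l.length ≤ nReach x s) ∧
        (TreeFrom x s → ∀ l l', P.IsComp x l true → P.IsComp x l' true → l = l')) ∧
    (∀ (k : ℕ) (s t : Fin k), ∃ P : DBP (Fin k × Bool) k,
      P.size ≤ (8 * k ^ 2) ^ (Nat.log 2 k + 2) ∧
      ∀ x : Input k, ∃ τ m, m ≤ 2 * nReach x s ∧ P.Run x τ m (decide (Reach x s t))) ∧
    (∃ C : ℝ, 0 < C ∧ ∃ k₀ : ℕ, ∀ k : ℕ, k₀ ≤ k → ∀ s t : Fin k,
      ∃ P : DBP (Fin k × Bool) k,
        Real.logb 2 P.size ≤ C * Real.logb 2 k ^ 2 / Real.logb 2 (Real.logb 2 k) ∧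
        ∀ x : Input k, TreeFrom x s →
          ∃ τ m, m ≤ 2 * nReach x s ∧ P.Run x τ m (decide (Reach x s t))) ∧
    (∀ θ δ : ℝ, θ < 1 → 0 < δ → ∃ c : ℝ, 0 < c ∧ ∃ k₀ : ℕ, ∀ k : ℕ, k₀ ≤ k →
      ∀ s t : Fin k, s ≠ t → ∃ (N : ℕ) (X : Fin N → Input k), 0 < N ∧
        (∀ i, TreeFrom (X i) s ∧ (nReach (X i) s : ℝ) ≤ (k : ℝ) ^ δ) ∧
        ∀ (P : DBP (Fin k × Bool) k) (ρ : Fin N → ℕ),
          (∀ i τ m b, P.Run (X i) τ m b → m ≤ ρ i) →
          (∑ i, (ρ i : ℝ)) ≤ (k : ℝ) ^ θ * N →
          Real.logb 2 P.size < c * Real.logb 2 k ^ 2 / Real.logb 2 (Real.logb 2 k) →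
          ((Finset.univ.filter fun i => ∃ τ m, P.Run (X i) τ m
            (decide (Reach (X i) s t))).card : ℝ) ≤ (1 / 2 + (k : ℝ) ^ (-c)) * N) :=
  ⟨Pool.Agent.W565.TR.Nbp.main, Pool.Agent.W565.ST.Sav.main, Pool.Agent.W565.TR.Up.main,
    Pool.Agent.W994.TR.lower_all⟩

end Pool.Agent.Results.MP_b7da94_lc.FewReadsTreeReachability
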